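import Mathlib
import Pool.Agent.Lib_helper25.ET.Base
import Pool.Agent.Lib_helper42.ET.IV
import Pool.Agent.Lib_helper32.ET.M3

/-! Project ET (MP_861054_an), block LB: recurrence with two parameters. -/

set_option autoImplicit false

namespace Pool.Agent.ET

open MeasureTheory Filter Topology Set
open scoped ContDiff ENNReal

noncomputable section

variable {S : Torus}

/-! ### statements of other blocks (IV, M3) -/

/-! ### LB -/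

/-- the lattice vector with the coordinates `l` -/
def LB_lat (S : Torus) (l : ℤ × ℤ) : ℂ := l.1 • S.w₁ + l.2 • S.w₂

theorem LB_lat_add (S : Torus) (l l' : ℤ × ℤ) : LB_lat S (l + l') = LB_lat S l + LB_lat S l' := by
  unfold LB_lat
  rw [Prod.fst_add, Prod.snd_add, add_smul, add_smul]
  abel

/-- the periods of the flow -/
def LB_per (Φ : Flow S) : AddSubgroup ℂ where
  carrier := {a | ∀ t (v : ℂ × ℝ), Φ.φ t (v.1 + a, v.2) = ((Φ.φ t v).1 + a, (Φ.φ t v).2)}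
  zero_mem' := by
    intro t v
    simp
  add_mem' := by
    intro a b ha hb t v
    have h := hb t (v.1 + a, v.2)
    rw [ha t v] at h
    rw [← add_assoc]
    rw [h]
    simp [add_assoc]
  neg_mem' := by
    intro a ha t v
    have h := ha t (v.1 + -a, v.2)
    simp only [neg_add_cancel_right] at h
    rw [h]
    simp

theorem LB_phi_lat (Φ : Flow S) (l : ℤ × ℤ) (t : ℝ) (v : ℂ × ℝ) :
    Φ.φ t (v.1 + LB_lat S l, v.2) = ((Φ.φ t v).1 + LB_lat S l, (Φ.φ t v).2) := by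
  have h : LB_lat S l ∈ LB_per Φ :=
    (LB_per Φ).add_mem ((LB_per Φ).zsmul_mem (fun t v => Φ.per₁ t v) _)
      ((LB_per Φ).zsmul_mem (fun t v => Φ.per₂ t v) _)
  exact h t v

/-- the simultaneous periods of a set of pairs -/
def LB_perW (W : Set ((ℂ × ℝ) × (ℂ × ℝ))) : AddSubgroup ℂ where
  carrier := {a | ∀ p : (ℂ × ℝ) × (ℂ × ℝ),
    (((p.1.1 + a, p.1.2), (p.2.1 + a, p.2.2)) : (ℂ × ℝ) × (ℂ × ℝ)) ∈ W ↔ p ∈ W}
  zero_mem' := by
    intro p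
    simp
  add_mem' := by
    intro a b ha hb p
    rw [← ha p, ← hb ((p.1.1 + a, p.1.2), (p.2.1 + a, p.2.2))]
    simp [add_assoc]
  neg_mem' := by
    intro a ha p
    rw [← ha ((p.1.1 + -a, p.1.2), (p.2.1 + -a, p.2.2))]
    simp

/-- the norm on the lattice -/
theorem LB_lower (S : Torus) : ∃ δ > (0 : ℝ), ∀ l : ℤ × ℤ,
    δ * |(l.1 : ℝ)| ≤ ‖LB_lat S l‖ ∧ δ * |(l.2 : ℝ)| ≤ ‖LB_lat S l‖ := by
  let f : (Fin 2 → ℝ) →ₗ[ℝ] ℂ := Fintype.linearCombination ℝ ![S.w₁, S.w₂]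
  have hf : LinearMap.ker f = ⊥ := by
    exact LinearMap.ker_eq_bot.2 (linearIndependent_iff_injective_fintypeLinearCombination.1 S.indep)
  obtain ⟨K, hK, hA⟩ := f.exists_antilipschitzWith hf
  refine ⟨(K : ℝ)⁻¹, by positivity, fun l => ?_⟩
  have h1 : f ![(l.1 : ℝ), (l.2 : ℝ)] = LB_lat S l := by
    simp [f, Fintype.linearCombination_apply, Fin.sum_univ_two, LB_lat]
  have h2 : ‖(![(l.1 : ℝ), (l.2 : ℝ)] : Fin 2 → ℝ)‖ ≤ K * ‖LB_lat S l‖ := by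
    have := hA.le_mul_dist ![(l.1 : ℝ), (l.2 : ℝ)] 0
    rwa [dist_zero_right, map_zero, dist_zero_right, h1] at this
  have hK' : (0 : ℝ) < K := by exact_mod_cast hK
  constructor
  · have h3 := norm_le_pi_norm (![(l.1 : ℝ), (l.2 : ℝ)] : Fin 2 → ℝ) 0
    have h4 : |(l.1 : ℝ)| ≤ K * ‖LB_lat S l‖ := by
      refine le_trans (le_of_eq ?_) (h3.trans h2)
      simp
    rw [inv_mul_le_iff₀ hK']
    exact h4
  · have h3 := norm_le_pi_norm (![(l.1 : ℝ), (l.2 : ℝ)] : Fin 2 → ℝ) 1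
    have h4 : |(l.2 : ℝ)| ≤ K * ‖LB_lat S l‖ := by
      refine le_trans (le_of_eq ?_) (h3.trans h2)
      simp
    rw [inv_mul_le_iff₀ hK']
    exact h4

/-- the sum over the lattice -/
def LB_F (S : Torus) (A : Set ((ℂ × ℝ) × (ℂ × ℝ))) (v w : ℂ × ℝ) : ℝ≥0∞ :=
  ∑' l : ℤ × ℤ, A.indicator 1 ((v, (w.1 + LB_lat S l, w.2)) : (ℂ × ℝ) × (ℂ × ℝ))

theorem LB_F_meas {A : Set ((ℂ × ℝ) × (ℂ × ℝ))} (hA : MeasurableSet A) :
    Measurable (fun p : (ℂ × ℝ) × (ℂ × ℝ) => LB_F S A p.1 p.2) := by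
  unfold LB_F
  refine Measurable.tsum fun l => ?_
  exact (measurable_one.indicator hA).comp (by fun_prop : Measurable
    fun p : (ℂ × ℝ) × (ℂ × ℝ) => (p.1, (p.2.1 + LB_lat S l, p.2.2)))

theorem LB_F_right (A : Set ((ℂ × ℝ) × (ℂ × ℝ))) (v w : ℂ × ℝ) (k : ℤ × ℤ) :
    LB_F S A v (w.1 + LB_lat S k, w.2) = LB_F S A v w := by
  unfold LB_F
  rw [← (Equiv.addLeft k).tsum_eq (fun l => A.indicator (1 : (ℂ × ℝ) × (ℂ × ℝ) → ℝ≥0∞)
    (v, (w.1 + LB_lat S l, w.2)))]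
  refine tsum_congr fun l => ?_
  rw [Equiv.coe_addLeft, LB_lat_add, add_assoc]

theorem LB_F_left (A : Set ((ℂ × ℝ) × (ℂ × ℝ))) (hA : ∀ l, LB_lat S l ∈ LB_perW A)
    (v w : ℂ × ℝ) (k : ℤ × ℤ) :
    LB_F S A (v.1 + LB_lat S k, v.2) w = LB_F S A v w := by
  unfold LB_F
  rw [← (Equiv.addRight k).tsum_eq (fun l => A.indicator (1 : (ℂ × ℝ) × (ℂ × ℝ) → ℝ≥0∞)
    ((v.1 + LB_lat S k, v.2), (w.1 + LB_lat S l, w.2)))]
  refine tsum_congr fun l => ?_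
  rw [Equiv.coe_addRight, LB_lat_add, ← add_assoc]
  have h := hA k (v, (w.1 + LB_lat S l, w.2))
  by_cases h1 : ((v, (w.1 + LB_lat S l, w.2)) : (ℂ × ℝ) × (ℂ × ℝ)) ∈ A
  · rw [indicator_of_mem h1, indicator_of_mem (h.2 h1)]
    rfl
  · rw [indicator_of_notMem h1, indicator_of_notMem (fun h2 => h1 (h.1 h2))]

theorem LB_lat_one (S : Torus) : LB_lat S (1, 0) = S.w₁ := by simp [LB_lat]

theorem LB_lat_two (S : Torus) : LB_lat S (0, 1) = S.w₂ := by simp [LB_lat]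

theorem LB_F_inv_right (A : Set ((ℂ × ℝ) × (ℂ × ℝ)))
    (h₄ : ∀ p : (ℂ × ℝ) × (ℂ × ℝ),
      ((p.1, (p.2.1, p.2.2 + 2 * Real.pi)) : (ℂ × ℝ) × (ℂ × ℝ)) ∈ A ↔ p ∈ A) (v : ℂ × ℝ) :
    S.Inv (LB_F S A v) where
  inv₁ w := by rw [← LB_lat_one S, LB_F_right]
  inv₂ w := by rw [← LB_lat_two S, LB_F_right]
  inv₃ w := by
    unfold LB_F
    refine tsum_congr fun l => ?_
    have h := h₄ (v, (w.1 + LB_lat S l, w.2))
    by_cases h1 : ((v, (w.1 + LB_lat S l, w.2)) : (ℂ × ℝ) × (ℂ × ℝ)) ∈ A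
    · rw [indicator_of_mem h1, indicator_of_mem (h.2 h1)]
      rfl
    · rw [indicator_of_notMem h1, indicator_of_notMem (fun h2 => h1 (h.1 h2))]

theorem LB_F_inv_left (A : Set ((ℂ × ℝ) × (ℂ × ℝ))) (hA : ∀ l, LB_lat S l ∈ LB_perW A)
    (h₃ : ∀ p : (ℂ × ℝ) × (ℂ × ℝ),
      (((p.1.1, p.1.2 + 2 * Real.pi), p.2) : (ℂ × ℝ) × (ℂ × ℝ)) ∈ A ↔ p ∈ A) (w : ℂ × ℝ) :
    S.Inv (fun v => LB_F S A v w) where
  inv₁ v := by
    rw [← LB_lat_one S, LB_F_left A hA]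
  inv₂ v := by
    rw [← LB_lat_two S, LB_F_left A hA]
  inv₃ v := by
    unfold LB_F
    refine tsum_congr fun l => ?_
    have h := h₃ (v, (w.1 + LB_lat S l, w.2))
    by_cases h1 : ((v, (w.1 + LB_lat S l, w.2)) : (ℂ × ℝ) × (ℂ × ℝ)) ∈ A
    · rw [indicator_of_mem h1, indicator_of_mem (h.2 h1)]
      rfl
    · rw [indicator_of_notMem h1, indicator_of_notMem (fun h2 => h1 (h.1 h2))]

/-- the pairs in `W` which spend little time in `W` -/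
def LB_WK (Φ : Flow S) (W : Set ((ℂ × ℝ) × (ℂ × ℝ))) (K : ℝ≥0∞) : Set ((ℂ × ℝ) × (ℂ × ℝ)) :=
  {p | p ∈ W ∧
    volume {q : ℝ × ℝ | ((Φ.φ q.1 p.1, Φ.φ q.2 p.2) : (ℂ × ℝ) × (ℂ × ℝ)) ∈ W} ≤ K}

theorem LB_joint_cont (Φ : Flow S) : Continuous
    (fun z : ((ℂ × ℝ) × (ℂ × ℝ)) × (ℝ × ℝ) =>
      ((Φ.φ z.2.1 z.1.1, Φ.φ z.2.2 z.1.2) : (ℂ × ℝ) × (ℂ × ℝ))) :=
  (Φ.cont.comp (by fun_prop : Continuous fun z : ((ℂ × ℝ) × (ℂ × ℝ)) × (ℝ × ℝ) =>
    (z.2.1, z.1.1))).prodMk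
    (Φ.cont.comp (by fun_prop : Continuous fun z : ((ℂ × ℝ) × (ℂ × ℝ)) × (ℝ × ℝ) =>
    (z.2.2, z.1.2)))

theorem LB_WK_meas (Φ : Flow S) {W : Set ((ℂ × ℝ) × (ℂ × ℝ))} (hW : MeasurableSet W)
    (K : ℝ≥0∞) : MeasurableSet (LB_WK Φ W K) := by
  refine hW.inter ?_
  have h1 : MeasurableSet ((fun z : ((ℂ × ℝ) × (ℂ × ℝ)) × (ℝ × ℝ) =>
      ((Φ.φ z.2.1 z.1.1, Φ.φ z.2.2 z.1.2) : (ℂ × ℝ) × (ℂ × ℝ))) ⁻¹' W) :=
    (LB_joint_cont Φ).measurable hW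
  have h2 := measurable_measure_prodMk_left (ν := (volume : Measure (ℝ × ℝ))) h1
  exact h2 measurableSet_Iic

theorem LB_WK_per (Φ : Flow S) {W : Set ((ℂ × ℝ) × (ℂ × ℝ))}
    (hW : ∀ l, LB_lat S l ∈ LB_perW W) (K : ℝ≥0∞) (l : ℤ × ℤ) :
    LB_lat S l ∈ LB_perW (LB_WK Φ W K) := by
  intro p
  have h1 := hW l p
  have h2 : {q : ℝ × ℝ | ((Φ.φ q.1 (p.1.1 + LB_lat S l, p.1.2),
      Φ.φ q.2 (p.2.1 + LB_lat S l, p.2.2)) : (ℂ × ℝ) × (ℂ × ℝ)) ∈ W}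
      = {q : ℝ × ℝ | ((Φ.φ q.1 p.1, Φ.φ q.2 p.2) : (ℂ × ℝ) × (ℂ × ℝ)) ∈ W} := by
    ext q
    rw [mem_ofPred_eq, mem_ofPred_eq, LB_phi_lat, LB_phi_lat]
    exact hW l (Φ.φ q.1 p.1, Φ.φ q.2 p.2)
  unfold LB_WK
  rw [mem_ofPred_eq, mem_ofPred_eq, h1]
  simp only [h2]

theorem LB_WK_three (Φ : Flow S) {W : Set ((ℂ × ℝ) × (ℂ × ℝ))}
    (hi₃ : ∀ p : (ℂ × ℝ) × (ℂ × ℝ),
      (((p.1.1, p.1.2 + 2 * Real.pi), p.2) : (ℂ × ℝ) × (ℂ × ℝ)) ∈ W ↔ p ∈ W) (K : ℝ≥0∞)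
    (p : (ℂ × ℝ) × (ℂ × ℝ)) :
    (((p.1.1, p.1.2 + 2 * Real.pi), p.2) : (ℂ × ℝ) × (ℂ × ℝ)) ∈ LB_WK Φ W K
      ↔ p ∈ LB_WK Φ W K := by
  have h1 := hi₃ p
  have h2 : {q : ℝ × ℝ | ((Φ.φ q.1 (p.1.1, p.1.2 + 2 * Real.pi),
      Φ.φ q.2 p.2) : (ℂ × ℝ) × (ℂ × ℝ)) ∈ W}
      = {q : ℝ × ℝ | ((Φ.φ q.1 p.1, Φ.φ q.2 p.2) : (ℂ × ℝ) × (ℂ × ℝ)) ∈ W} := by
    ext q
    rw [mem_ofPred_eq, mem_ofPred_eq, Φ.per₃]
    exact hi₃ (Φ.φ q.1 p.1, Φ.φ q.2 p.2)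
  unfold LB_WK
  rw [mem_ofPred_eq, mem_ofPred_eq, h1]
  simp only [h2]

theorem LB_WK_four (Φ : Flow S) {W : Set ((ℂ × ℝ) × (ℂ × ℝ))}
    (hi₄ : ∀ p : (ℂ × ℝ) × (ℂ × ℝ),
      ((p.1, (p.2.1, p.2.2 + 2 * Real.pi)) : (ℂ × ℝ) × (ℂ × ℝ)) ∈ W ↔ p ∈ W) (K : ℝ≥0∞)
    (p : (ℂ × ℝ) × (ℂ × ℝ)) :
    ((p.1, (p.2.1, p.2.2 + 2 * Real.pi)) : (ℂ × ℝ) × (ℂ × ℝ)) ∈ LB_WK Φ W K
      ↔ p ∈ LB_WK Φ W K := by
  have h1 := hi₄ p
  have h2 : {q : ℝ × ℝ | ((Φ.φ q.1 p.1,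
      Φ.φ q.2 (p.2.1, p.2.2 + 2 * Real.pi)) : (ℂ × ℝ) × (ℂ × ℝ)) ∈ W}
      = {q : ℝ × ℝ | ((Φ.φ q.1 p.1, Φ.φ q.2 p.2) : (ℂ × ℝ) × (ℂ × ℝ)) ∈ W} := by
    ext q
    rw [mem_ofPred_eq, mem_ofPred_eq, Φ.per₃]
    exact hi₄ (Φ.φ q.1 p.1, Φ.φ q.2 p.2)
  unfold LB_WK
  rw [mem_ofPred_eq, mem_ofPred_eq, h1]
  simp only [h2]

/-- **The pointwise estimate.** -/
theorem LB_point (Φ : Flow S) {c : ℝ} {W : Set ((ℂ × ℝ) × (ℂ × ℝ))} (hW : MeasurableSet W)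
    (hc : ∀ p ∈ W, ‖p.1.1 - p.2.1‖ ≤ c) {δ : ℝ} (hδ : 0 < δ)
    (hδl : ∀ l : ℤ × ℤ, δ * |(l.1 : ℝ)| ≤ ‖LB_lat S l‖ ∧ δ * |(l.2 : ℝ)| ≤ ‖LB_lat S l‖)
    (K : ℝ≥0∞) (v w : ℂ × ℝ) {B Rv Rw T : ℝ} (hv : ‖v.1‖ ≤ B) (hw : ‖w.1‖ ≤ B)
    (hRv : ∀ t, |t| ≤ T → ‖Φ.D t v‖ ≤ Rv) (hRw : ∀ t, |t| ≤ T → ‖Φ.D t w‖ ≤ Rw)
    (h0 : 0 ≤ c + 2 * B + Rv + Rw) :
    ∫⁻ q in (Icc (0 : ℝ) T ×ˢ Icc (0 : ℝ) T), LB_F S (LB_WK Φ W K) (Φ.φ q.1 v) (Φ.φ q.2 w)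
      ≤ ENNReal.ofReal ((2 * ((c + 2 * B + Rv + Rw) / δ) + 1) ^ 2) * K := by
  set ρ := c + 2 * B + Rv + Rw with hρ
  set Q : Set (ℝ × ℝ) := Icc (0 : ℝ) T ×ˢ Icc (0 : ℝ) T with hQ
  let A : ℤ × ℤ → Set (ℝ × ℝ) := fun l => {q | ((Φ.φ q.1 v,
    Φ.φ q.2 (w.1 + LB_lat S l, w.2)) : (ℂ × ℝ) × (ℂ × ℝ)) ∈ LB_WK Φ W K}
  have hAm : ∀ l, MeasurableSet (A l) := by
    intro l
    have h1 : Continuous (fun q : ℝ × ℝ => ((Φ.φ q.1 v,
        Φ.φ q.2 (w.1 + LB_lat S l, w.2)) : (ℂ × ℝ) × (ℂ × ℝ))) :=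
      (LB_joint_cont Φ).comp (by fun_prop : Continuous fun q : ℝ × ℝ =>
        (((v, (w.1 + LB_lat S l, w.2)) : (ℂ × ℝ) × (ℂ × ℝ)), q))
    exact h1.measurable (LB_WK_meas Φ hW K)
  -- the integral is a sum of areas
  have h1 : ∫⁻ q in Q, LB_F S (LB_WK Φ W K) (Φ.φ q.1 v) (Φ.φ q.2 w)
      = ∑' l, volume (A l ∩ Q) := by
    have h2 : ∀ q : ℝ × ℝ, LB_F S (LB_WK Φ W K) (Φ.φ q.1 v) (Φ.φ q.2 w)
        = ∑' l, (A l).indicator 1 q := by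
      intro q
      unfold LB_F
      refine tsum_congr fun l => ?_
      have h3 := LB_phi_lat Φ l q.2 w
      rw [← h3]
      rfl
    simp only [h2]
    rw [lintegral_tsum (fun l => (measurable_one.indicator (hAm l)).aemeasurable)]
    refine tsum_congr fun l => ?_
    rw [lintegral_indicator_one (hAm l), Measure.restrict_apply (hAm l)]
  rw [h1]
  -- each area is at most `K`
  have h4 : ∀ l, volume (A l ∩ Q) ≤ K := by
    intro l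
    rcases (A l ∩ Q).eq_empty_or_nonempty with he | ⟨q₀, hq₀, -⟩
    · rw [he, measure_empty]
      exact bot_le
    · set U : Set (ℝ × ℝ) := {q : ℝ × ℝ | ((Φ.φ q.1 (Φ.φ q₀.1 v),
        Φ.φ q.2 (Φ.φ q₀.2 (w.1 + LB_lat S l, w.2))) : (ℂ × ℝ) × (ℂ × ℝ)) ∈ W} with hU
      have h5 : volume U ≤ K := hq₀.2
      have h6 : A l ∩ Q ⊆ (fun q : ℝ × ℝ => q + (-q₀)) ⁻¹' U := by
        rintro q ⟨hq, -⟩
        have h7 := hq.1
        rw [mem_preimage, hU, mem_ofPred_eq]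
        have e1 : Φ.φ (q + -q₀).1 (Φ.φ q₀.1 v) = Φ.φ q.1 v := by
          rw [← Φ.add]
          congr 1
          simp
        have e2 : Φ.φ (q + -q₀).2 (Φ.φ q₀.2 (w.1 + LB_lat S l, w.2))
            = Φ.φ q.2 (w.1 + LB_lat S l, w.2) := by
          rw [← Φ.add]
          congr 1
          simp
        rw [e1, e2]
        exact h7
      refine (measure_mono h6).trans ?_
      rw [measure_preimage_add_right]
      exact h5
  -- only few terms are not zero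
  set N : ℤ := ⌊ρ / δ⌋ with hN
  have hN0 : 0 ≤ N := Int.floor_nonneg.2 (div_nonneg h0 hδ.le)
  have h8 : ∀ l, l ∉ (Finset.Icc (-N) N ×ˢ Finset.Icc (-N) N : Finset (ℤ × ℤ)) →
      volume (A l ∩ Q) = 0 := by
    intro l hl
    rcases (A l ∩ Q).eq_empty_or_nonempty with he | ⟨q₀, hq₀, hq₁⟩
    · rw [he, measure_empty]
    · exfalso
      apply hl
      have h9 := hc _ hq₀.1
      rw [LB_phi_lat] at h9
      have hq1 : |q₀.1| ≤ T := by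
        rw [abs_of_nonneg hq₁.1.1]
        exact hq₁.1.2
      have hq2 : |q₀.2| ≤ T := by
        rw [abs_of_nonneg hq₁.2.1]
        exact hq₁.2.2
      have h10 : LB_lat S l = (v.1 + Φ.D q₀.1 v) - (w.1 + Φ.D q₀.2 w)
          - ((Φ.φ q₀.1 v).1 - ((Φ.φ q₀.2 w).1 + LB_lat S l)) := by
        rw [Φ.pos, Φ.pos]
        ring
      have h11 : ‖LB_lat S l‖ ≤ ρ := by
        rw [h10]
        have a1 := norm_sub_le ((v.1 + Φ.D q₀.1 v) - (w.1 + Φ.D q₀.2 w))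
          ((Φ.φ q₀.1 v).1 - ((Φ.φ q₀.2 w).1 + LB_lat S l))
        have a2 := norm_sub_le (v.1 + Φ.D q₀.1 v) (w.1 + Φ.D q₀.2 w)
        have a3 := norm_add_le v.1 (Φ.D q₀.1 v)
        have a4 := norm_add_le w.1 (Φ.D q₀.2 w)
        have a5 := hRv _ hq1
        have a6 := hRw _ hq2
        have a7 : ‖(Φ.φ q₀.1 v).1 - ((Φ.φ q₀.2 w).1 + LB_lat S l)‖ ≤ c := h9
        rw [hρ]
        linarith
      have h12 : ∀ m : ℤ, δ * |(m : ℝ)| ≤ ‖LB_lat S l‖ → m ∈ Finset.Icc (-N) N := by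
        intro m hm
        have h13 : |(m : ℝ)| ≤ ρ / δ := by
          rw [le_div_iff₀ hδ, mul_comm]
          exact hm.trans h11
        rw [← Int.cast_abs] at h13
        have h14 : |m| ≤ N := Int.le_floor.2 h13
        rw [Finset.mem_Icc]
        exact abs_le.1 h14
      rw [Finset.mem_product]
      exact ⟨h12 _ (hδl l).1, h12 _ (hδl l).2⟩
  rw [tsum_eq_sum h8]
  refine (Finset.sum_le_card_nsmul _ _ K fun l _ => h4 l).trans ?_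
  rw [nsmul_eq_mul]
  refine mul_le_mul_left ?_ K
  rw [Finset.card_product, Int.card_Icc]
  have h15 : ((N + 1 - -N).toNat : ℝ) ≤ 2 * (ρ / δ) + 1 := by
    have h16 : ((N + 1 - -N).toNat : ℤ) = 2 * N + 1 := by
      rw [Int.toNat_of_nonneg (by linarith)]
      ring
    have h17 : ((N + 1 - -N).toNat : ℝ) = 2 * (N : ℝ) + 1 := by
      exact_mod_cast congrArg (Int.cast : ℤ → ℝ) h16
    rw [h17]
    have := Int.floor_le (ρ / δ)
    linarith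
  rw [← ENNReal.ofReal_natCast]
  apply ENNReal.ofReal_le_ofReal
  push_cast
  rw [sq]
  exact mul_le_mul h15 h15 (Nat.cast_nonneg _) (by positivity)

theorem LB_box_norm (S : Torus) (v : ℂ × ℝ) (hv : v ∈ S.box) : ‖v.1‖ ≤ ‖S.w₁‖ + ‖S.w₂‖ := by
  obtain ⟨⟨x, hx, y, hy, h⟩, -⟩ := hv
  rw [h]
  refine (norm_add_le _ _).trans (add_le_add ?_ ?_)
  · rw [norm_mul, Complex.norm_real, Real.norm_of_nonneg hx.1]
    exact mul_le_of_le_one_left (norm_nonneg _) hx.2.le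
  · rw [norm_mul, Complex.norm_real, Real.norm_of_nonneg hy.1]
    exact mul_le_of_le_one_left (norm_nonneg _) hy.2.le

/-- the integral of the sum over the box is invariant -/
theorem LB_int_inv (Φ : Flow S) {A : Set ((ℂ × ℝ) × (ℂ × ℝ))} (hAm : MeasurableSet A)
    (hA : ∀ l, LB_lat S l ∈ LB_perW A)
    (h₃ : ∀ p : (ℂ × ℝ) × (ℂ × ℝ),
      (((p.1.1, p.1.2 + 2 * Real.pi), p.2) : (ℂ × ℝ) × (ℂ × ℝ)) ∈ A ↔ p ∈ A)
    (h₄ : ∀ p : (ℂ × ℝ) × (ℂ × ℝ),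
      ((p.1, (p.2.1, p.2.2 + 2 * Real.pi)) : (ℂ × ℝ) × (ℂ × ℝ)) ∈ A ↔ p ∈ A) (q : ℝ × ℝ)
    [SFinite (S.m.restrict S.box)] :
    ∫⁻ v in S.box, ∫⁻ w in S.box, LB_F S A (Φ.φ q.1 v) (Φ.φ q.2 w) ∂S.m ∂S.m
      = ∫⁻ v in S.box, ∫⁻ w in S.box, LB_F S A v w ∂S.m ∂S.m := by
  have hF := LB_F_meas (S := S) hAm
  have h1 : ∀ v, ∫⁻ w in S.box, LB_F S A (Φ.φ q.1 v) (Φ.φ q.2 w) ∂S.m
      = ∫⁻ w in S.box, LB_F S A (Φ.φ q.1 v) w ∂S.m := by
    intro v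
    exact lint_inv Φ q.2 (LB_F S A (Φ.φ q.1 v))
      (hF.comp (by fun_prop : Measurable fun w : ℂ × ℝ => (Φ.φ q.1 v, w)))
      (LB_F_inv_right A h₄ _)
  simp only [h1]
  refine lint_inv Φ q.1 (fun v => ∫⁻ w in S.box, LB_F S A v w ∂S.m) hF.lintegral_prod_right' ?_
  refine ⟨fun v => ?_, fun v => ?_, fun v => ?_⟩
  · exact lintegral_congr fun w => (LB_F_inv_left A hA h₃ w).inv₁ v
  · exact lintegral_congr fun w => (LB_F_inv_left A hA h₃ w).inv₂ v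
  · exact lintegral_congr fun w => (LB_F_inv_left A hA h₃ w).inv₃ v

/-- if the integral vanishes then almost every pair is outside -/
theorem LB_null {A : Set ((ℂ × ℝ) × (ℂ × ℝ))} (hAm : MeasurableSet A)
    (hA : ∀ l, LB_lat S l ∈ LB_perW A)
    (h₃ : ∀ p : (ℂ × ℝ) × (ℂ × ℝ),
      (((p.1.1, p.1.2 + 2 * Real.pi), p.2) : (ℂ × ℝ) × (ℂ × ℝ)) ∈ A ↔ p ∈ A)
    (h₄ : ∀ p : (ℂ × ℝ) × (ℂ × ℝ),
      ((p.1, (p.2.1, p.2.2 + 2 * Real.pi)) : (ℂ × ℝ) × (ℂ × ℝ)) ∈ A ↔ p ∈ A)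
    [SFinite (S.m.restrict S.box)]
    (h0 : ∫⁻ v in S.box, ∫⁻ w in S.box, LB_F S A v w ∂S.m ∂S.m = 0) :
    ∀ᵐ p : (ℂ × ℝ) × (ℂ × ℝ), p ∉ A := by
  have hF := LB_F_meas (S := S) hAm
  set G : ℂ × ℝ → ℝ≥0∞ := fun v => ∫⁻ w in S.box, LB_F S A v w ∂S.m with hG
  have hGm : Measurable G := hF.lintegral_prod_right'
  have h1 : volume {v | G v ≠ 0} = 0 := by
    rw [box_null S {v | G v ≠ 0}]
    · have h2 := (lintegral_eq_zero_iff hGm).1 h0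
      have h3 : ∀ᵐ v ∂(S.m.restrict S.box), G v = 0 := h2
      have hms : MeasurableSet {v | G v ≠ 0} := hGm (measurableSet_singleton 0).compl
      rw [ae_iff] at h3
      have h3' : (S.m.restrict S.box) {v | G v ≠ 0} = 0 := h3
      rwa [Measure.restrict_apply hms] at h3'
    · refine ⟨fun v => ?_, fun v => ?_, fun v => ?_⟩
      · have : G (v.1 + S.w₁, v.2) = G v :=
          lintegral_congr fun w => (LB_F_inv_left A hA h₃ w).inv₁ v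
        simp only [mem_ofPred_eq, this]
      · have : G (v.1 + S.w₂, v.2) = G v :=
          lintegral_congr fun w => (LB_F_inv_left A hA h₃ w).inv₂ v
        simp only [mem_ofPred_eq, this]
      · have : G (v.1, v.2 + 2 * Real.pi) = G v :=
          lintegral_congr fun w => (LB_F_inv_left A hA h₃ w).inv₃ v
        simp only [mem_ofPred_eq, this]
  have h4 : ∀ v, G v = 0 → volume {w | LB_F S A v w ≠ 0} = 0 := by
    intro v hv
    have hm : Measurable (LB_F S A v) :=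
      hF.comp (by fun_prop : Measurable fun w : ℂ × ℝ => (v, w))
    rw [box_null S {w | LB_F S A v w ≠ 0}]
    · have h2 := (lintegral_eq_zero_iff hm).1 hv
      have h3 : ∀ᵐ w ∂(S.m.restrict S.box), LB_F S A v w = 0 := h2
      have hms : MeasurableSet {w | LB_F S A v w ≠ 0} := hm (measurableSet_singleton 0).compl
      rw [ae_iff] at h3
      have h3' : (S.m.restrict S.box) {w | LB_F S A v w ≠ 0} = 0 := h3
      rwa [Measure.restrict_apply hms] at h3'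
    · have hi := LB_F_inv_right (S := S) A h₄ v
      refine ⟨fun w => ?_, fun w => ?_, fun w => ?_⟩
      · simp only [mem_ofPred_eq, hi.inv₁ w]
      · simp only [mem_ofPred_eq, hi.inv₂ w]
      · simp only [mem_ofPred_eq, hi.inv₃ w]
  have h5 : volume {p : (ℂ × ℝ) × (ℂ × ℝ) | LB_F S A p.1 p.2 ≠ 0} = 0 := by
    have hms : MeasurableSet {p : (ℂ × ℝ) × (ℂ × ℝ) | LB_F S A p.1 p.2 ≠ 0} :=
      hF (measurableSet_singleton 0).compl
    rw [Measure.volume_eq_prod, Measure.measure_prod_null hms]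
    rw [Filter.EventuallyEq, ae_iff]
    refine measure_mono_null ?_ h1
    intro v hv hGv
    exact hv (h4 v hGv)
  rw [ae_iff]
  refine measure_mono_null ?_ h5
  intro p hp
  simp only [mem_ofPred_eq, not_not] at hp ⊢
  have h6 : (1 : ℝ≥0∞) ≤ LB_F S A p.1 p.2 := by
    unfold LB_F
    refine le_trans ?_ (ENNReal.le_tsum (0 : ℤ × ℤ))
    have h7 : ((p.1, (p.2.1 + LB_lat S 0, p.2.2)) : (ℂ × ℝ) × (ℂ × ℝ)) = p := by
      simp [LB_lat]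
    rw [h7, indicator_of_mem hp]
    exact le_rfl
  intro h8
  rw [h8] at h6
  exact absurd h6 (by simp)

theorem recB (h : S.Ergodic) (Φ : Flow S) (c : ℝ) (W : Set ((ℂ × ℝ) × (ℂ × ℝ)))
    (hW : MeasurableSet W)
    (hi₁ : ∀ p : (ℂ × ℝ) × (ℂ × ℝ),
      (((p.1.1 + S.w₁, p.1.2), (p.2.1 + S.w₁, p.2.2)) : (ℂ × ℝ) × (ℂ × ℝ)) ∈ W ↔ p ∈ W)
    (hi₂ : ∀ p : (ℂ × ℝ) × (ℂ × ℝ),
      (((p.1.1 + S.w₂, p.1.2), (p.2.1 + S.w₂, p.2.2)) : (ℂ × ℝ) × (ℂ × ℝ)) ∈ W ↔ p ∈ W)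
    (hi₃ : ∀ p : (ℂ × ℝ) × (ℂ × ℝ),
      (((p.1.1, p.1.2 + 2 * Real.pi), p.2) : (ℂ × ℝ) × (ℂ × ℝ)) ∈ W ↔ p ∈ W)
    (hi₄ : ∀ p : (ℂ × ℝ) × (ℂ × ℝ),
      ((p.1, (p.2.1, p.2.2 + 2 * Real.pi)) : (ℂ × ℝ) × (ℂ × ℝ)) ∈ W ↔ p ∈ W)
    (hc : ∀ p ∈ W, ‖p.1.1 - p.2.1‖ ≤ c) :
    ∀ᵐ p : (ℂ × ℝ) × (ℂ × ℝ), p ∈ W →
      volume {q : ℝ × ℝ | ((Φ.φ q.1 p.1, Φ.φ q.2 p.2) : (ℂ × ℝ) × (ℂ × ℝ)) ∈ W} = ⊤ := by
  have hfin : IsFiniteMeasure (S.m.restrict S.box) :=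
    ⟨by rw [Measure.restrict_apply_univ]; exact box_fin S⟩
  have hsf : SFinite S.m := by
    unfold Torus.m
    infer_instance
  have hper : ∀ l, LB_lat S l ∈ LB_perW W := fun l =>
    (LB_perW W).add_mem ((LB_perW W).zsmul_mem hi₁ _) ((LB_perW W).zsmul_mem hi₂ _)
  obtain ⟨δ, hδ, hδl⟩ := LB_lower S
  have key : ∀ K : ℕ, ∀ᵐ p : (ℂ × ℝ) × (ℂ × ℝ), p ∉ LB_WK Φ W K := by
    intro K
    have hAm := LB_WK_meas Φ hW (K : ℝ≥0∞)
    have hA := LB_WK_per Φ hper (K : ℝ≥0∞)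
    have h₃ := LB_WK_three Φ hi₃ (K : ℝ≥0∞)
    have h₄ := LB_WK_four Φ hi₄ (K : ℝ≥0∞)
    refine LB_null hAm hA h₃ h₄ ?_
    set A := LB_WK Φ W (K : ℝ≥0∞) with hAdef
    set μ := S.m.restrict S.box with hμ
    set I := ∫⁻ v, ∫⁻ w, LB_F S A v w ∂μ ∂μ with hI
    have hF := LB_F_meas (S := S) hAm
    set M : ℝ := (μ univ).toReal with hM
    have hMe : μ univ = ENNReal.ofReal M := (ENNReal.ofReal_toReal (measure_ne_top μ univ)).symm
    have hM0 : 0 ≤ M := ENNReal.toReal_nonneg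
    set B := ‖S.w₁‖ + ‖S.w₂‖ with hB
    have hB0 : 0 ≤ B := by positivity
    set x : ℝ := 2 * ((max c 0 + 2 * B) / δ) + 1 with hx
    -- the estimate for large `T`
    have hbound : ∀ ε > (0 : ℝ), ∃ T₀ > (0 : ℝ), ∀ T ≥ T₀, ENNReal.ofReal (T ^ 2) * I ≤
        ENNReal.ofReal (K * (3 * x ^ 2 * M ^ 2 + 2 * (12 / δ ^ 2) * M * (ε * T ^ 2))) := by
      intro ε hε
      obtain ⟨T₀, hT₀, hT⟩ := disp_small h Φ ε hε
      refine ⟨T₀, hT₀, fun T hTT => ?_⟩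
      obtain ⟨R, hRm, hR0, hR, hRint⟩ := hT T hTT
      have hTpos : 0 < T := lt_of_lt_of_le hT₀ hTT
      set Q : Set (ℝ × ℝ) := Icc (0 : ℝ) T ×ˢ Icc (0 : ℝ) T with hQ
      have hvolQ : volume Q = ENNReal.ofReal (T ^ 2) := by
        rw [hQ, Measure.volume_eq_prod, Measure.prod_prod, Real.volume_Icc, sub_zero,
          ← ENNReal.ofReal_mul hTpos.le, sq]
      set f : (ℝ × ℝ) → ((ℂ × ℝ) × (ℂ × ℝ)) → ℝ≥0∞ := fun q p =>
        LB_F S A (Φ.φ q.1 p.1) (Φ.φ q.2 p.2) with hf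
      have hfm : Measurable (Function.uncurry f) := by
        have h1 : Measurable (fun z : (ℝ × ℝ) × ((ℂ × ℝ) × (ℂ × ℝ)) =>
            ((Φ.φ z.1.1 z.2.1, Φ.φ z.1.2 z.2.2) : (ℂ × ℝ) × (ℂ × ℝ))) :=
          ((LB_joint_cont Φ).comp (by fun_prop : Continuous
            fun z : (ℝ × ℝ) × ((ℂ × ℝ) × (ℂ × ℝ)) => (z.2, z.1))).measurable
        exact hF.comp h1
      have e1 : ∀ q, ∫⁻ p, f q p ∂(μ.prod μ) = I := by
        intro q
        have hfq : Measurable (fun p => f q p) := hfm.comp (by fun_prop : Measurable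
          fun p : (ℂ × ℝ) × (ℂ × ℝ) => (q, p))
        rw [lintegral_prod _ hfq.aemeasurable]
        exact LB_int_inv Φ hAm hA h₃ h₄ q
      have e2 : ENNReal.ofReal (T ^ 2) * I = ∫⁻ p, (∫⁻ q in Q, f q p) ∂(μ.prod μ) := by
        rw [← lintegral_lintegral_swap hfm.aemeasurable]
        simp only [e1]
        rw [setLIntegral_const, hvolQ, mul_comm]
      rw [e2]
      have e3 : μ.prod μ = (S.m.prod S.m).restrict (S.box ×ˢ S.box) := by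
        rw [hμ, Measure.prod_restrict]
      have e4 : ∫⁻ p, (∫⁻ q in Q, f q p) ∂(μ.prod μ) ≤
          ∫⁻ p, (ENNReal.ofReal (3 * x ^ 2) + (ENNReal.ofReal (12 / δ ^ 2) *
            ENNReal.ofReal (R p.1 ^ 2) + ENNReal.ofReal (12 / δ ^ 2) *
            ENNReal.ofReal (R p.2 ^ 2))) * K ∂(μ.prod μ) := by
        rw [e3]
        refine setLIntegral_mono' ((box_meas S).prod (box_meas S)) ?_
        intro p hp
        have hx0 : 0 ≤ (max c 0 + 2 * B) + R p.1 + R p.2 := by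
          have := hR0 p.1
          have := hR0 p.2
          have := le_max_right c 0
          linarith
        refine (LB_point Φ hW (fun p hp => (hc p hp).trans (le_max_left c 0)) hδ hδl K p.1 p.2
          (LB_box_norm S _ hp.1) (LB_box_norm S _ hp.2) (hR p.1) (hR p.2) hx0).trans ?_
        refine mul_le_mul_left ?_ _
        rw [← ENNReal.ofReal_mul (by positivity), ← ENNReal.ofReal_mul (by positivity),
          ← ENNReal.ofReal_add (by positivity) (by positivity),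
          ← ENNReal.ofReal_add (by positivity) (by positivity)]
        apply ENNReal.ofReal_le_ofReal
        have e5 : 2 * ((max c 0 + 2 * B + R p.1 + R p.2) / δ) + 1
            = x + 2 * R p.1 / δ + 2 * R p.2 / δ := by
          rw [hx]
          ring
        rw [e5]
        have e6 : 12 / δ ^ 2 * R p.1 ^ 2 = 3 * (2 * R p.1 / δ) ^ 2 := by
          field_simp
          ring
        have e7 : 12 / δ ^ 2 * R p.2 ^ 2 = 3 * (2 * R p.2 / δ) ^ 2 := by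
          field_simp
          ring
        rw [e6, e7]
        nlinarith [sq_nonneg (x - 2 * R p.1 / δ), sq_nonneg (x - 2 * R p.2 / δ),
          sq_nonneg (2 * R p.1 / δ - 2 * R p.2 / δ)]
      refine e4.trans ?_
      have hr : Measurable (fun v : ℂ × ℝ => ENNReal.ofReal (R v ^ 2)) := by fun_prop
      have e8 : ∫⁻ p : (ℂ × ℝ) × (ℂ × ℝ), ENNReal.ofReal (R p.1 ^ 2) ∂(μ.prod μ)
          = (∫⁻ v, ENNReal.ofReal (R v ^ 2) ∂μ) * μ univ := by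
        have hr1 : Measurable (fun p : (ℂ × ℝ) × (ℂ × ℝ) => ENNReal.ofReal (R p.1 ^ 2)) :=
          hr.comp measurable_fst
        rw [lintegral_prod _ hr1.aemeasurable]
        simp only [lintegral_const]
        rw [lintegral_mul_const _ hr]
      have e9 : ∫⁻ p : (ℂ × ℝ) × (ℂ × ℝ), ENNReal.ofReal (R p.2 ^ 2) ∂(μ.prod μ)
          = (∫⁻ v, ENNReal.ofReal (R v ^ 2) ∂μ) * μ univ := by
        have hr2 : Measurable (fun p : (ℂ × ℝ) × (ℂ × ℝ) => ENNReal.ofReal (R p.2 ^ 2)) :=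
          hr.comp measurable_snd
        rw [lintegral_prod _ hr2.aemeasurable]
        simp only [lintegral_const]
      have hr1 : Measurable (fun p : (ℂ × ℝ) × (ℂ × ℝ) => ENNReal.ofReal (R p.1 ^ 2)) :=
        hr.comp measurable_fst
      have hr2 : Measurable (fun p : (ℂ × ℝ) × (ℂ × ℝ) => ENNReal.ofReal (R p.2 ^ 2)) :=
        hr.comp measurable_snd
      rw [lintegral_mul_const _ (by fun_prop), lintegral_add_left (by fun_prop),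
        lintegral_add_left (by fun_prop), lintegral_const_mul _ hr1, lintegral_const_mul _ hr2,
        e8, e9, lintegral_const]
      have e10 : (μ.prod μ) univ = ENNReal.ofReal (M ^ 2) := by
        rw [← univ_prod_univ, Measure.prod_prod, hMe, ← ENNReal.ofReal_mul hM0, sq]
      rw [e10, hMe]
      have e11 : ∫⁻ v, ENNReal.ofReal (R v ^ 2) ∂μ ≤ ENNReal.ofReal (ε * T ^ 2) := hRint
      calc (ENNReal.ofReal (3 * x ^ 2) * ENNReal.ofReal (M ^ 2) +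
            (ENNReal.ofReal (12 / δ ^ 2) *
              ((∫⁻ v, ENNReal.ofReal (R v ^ 2) ∂μ) * ENNReal.ofReal M) +
            ENNReal.ofReal (12 / δ ^ 2) *
              ((∫⁻ v, ENNReal.ofReal (R v ^ 2) ∂μ) * ENNReal.ofReal M))) * (K : ℝ≥0∞)
          ≤ (ENNReal.ofReal (3 * x ^ 2) * ENNReal.ofReal (M ^ 2) +
            (ENNReal.ofReal (12 / δ ^ 2) *
              (ENNReal.ofReal (ε * T ^ 2) * ENNReal.ofReal M) +
            ENNReal.ofReal (12 / δ ^ 2) *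
              (ENNReal.ofReal (ε * T ^ 2) * ENNReal.ofReal M))) * (K : ℝ≥0∞) := by
            gcongr
        _ = ENNReal.ofReal (K * (3 * x ^ 2 * M ^ 2 + 2 * (12 / δ ^ 2) * M * (ε * T ^ 2))) := by
            rw [← ENNReal.ofReal_natCast K, ← ENNReal.ofReal_mul (by positivity),
              ← ENNReal.ofReal_mul (by positivity), ← ENNReal.ofReal_mul (by positivity),
              ← ENNReal.ofReal_add (by positivity) (by positivity),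
              ← ENNReal.ofReal_add (by positivity) (by positivity),
              ← ENNReal.ofReal_mul (by positivity)]
            congr 1
            ring
    -- conclusion
    have hI0 : I ≤ 0 := by
      refine ENNReal.le_of_forall_pos_le_add fun η hη _ => ?_
      rw [zero_add]
      have hη' : (0 : ℝ) < η := hη
      set z1 : ℝ := K * (3 * x ^ 2 * M ^ 2) with hz1
      set z2 : ℝ := K * (2 * (12 / δ ^ 2) * M) with hz2
      have hz1' : 0 ≤ z1 := by positivity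
      have hz2' : 0 ≤ z2 := by positivity
      obtain ⟨T₀, hT₀, hT⟩ := hbound (η / (2 * (z2 + 1))) (by positivity)
      set T := max T₀ (max 1 (2 * z1 / η)) with hTdef
      have hT1 : T₀ ≤ T := le_max_left _ _
      have hT2 : 1 ≤ T := (le_max_left _ _).trans (le_max_right _ _)
      have hT3 : 2 * z1 / η ≤ T := (le_max_right _ _).trans (le_max_right _ _)
      have hTpos : 0 < T := by linarith
      have h1 := hT T hT1
      have h2 : I ≤ ENNReal.ofReal ((K * (3 * x ^ 2 * M ^ 2 + 2 * (12 / δ ^ 2) * M *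
          (η / (2 * (z2 + 1)) * T ^ 2))) / T ^ 2) := by
        rw [ENNReal.ofReal_div_of_pos (by positivity)]
        rw [ENNReal.le_div_iff_mul_le (Or.inl (by positivity)) (Or.inl ENNReal.ofReal_ne_top),
          mul_comm]
        exact h1
      refine h2.trans ?_
      have h3 : ENNReal.ofReal (η : ℝ) = (η : ℝ≥0∞) := ENNReal.ofReal_coe_nnreal
      rw [← h3]
      apply ENNReal.ofReal_le_ofReal
      rw [div_le_iff₀ (by positivity)]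
      have h4 : (K : ℝ) * (3 * x ^ 2 * M ^ 2 + 2 * (12 / δ ^ 2) * M *
          (η / (2 * (z2 + 1)) * T ^ 2)) = z1 + z2 / (2 * (z2 + 1)) * η * T ^ 2 := by
        rw [hz1, hz2]
        ring
      rw [h4]
      have h5 : z2 / (2 * (z2 + 1)) ≤ 1 / 2 := by
        rw [div_le_div_iff₀ (by positivity) (by positivity)]
        linarith
      have h6 : z1 ≤ η / 2 * T ^ 2 := by
        have h7 : 2 * z1 ≤ T * η := by
          rwa [div_le_iff₀ hη'] at hT3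
        nlinarith [mul_pos hη' hTpos]
      have h8 : z2 / (2 * (z2 + 1)) * η * T ^ 2 ≤ 1 / 2 * η * T ^ 2 := by gcongr
      linarith
    exact le_antisymm hI0 bot_le
  have key2 : ∀ᵐ p : (ℂ × ℝ) × (ℂ × ℝ), ∀ K : ℕ, p ∉ LB_WK Φ W K := ae_all_iff.2 key
  filter_upwards [key2] with p hp hpW
  by_contra hne
  obtain ⟨K, hK⟩ := ENNReal.exists_nat_gt hne
  exact hp K ⟨hpW, hK.le⟩

end

end Pool.Agent.ET
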