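import Mathlib
import Pool.Agent.Lib_helper25.ET.Base
import Pool.Agent.Lib_helper25.ET.FL
import Pool.Agent.Lib_helper42.ET.IV
import Pool.Agent.Lib_helper66.ET.LB

/-! Project ET (MP_861054_an), block X: two geodesics cross transversally never or infinitely often. -/

set_option autoImplicit false

namespace Pool.Agent.ET

open MeasureTheory Filter Topology Set
open scoped ContDiff ENNReal

noncomputable section

variable {S : Torus}

/-! ### the proof -/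

/-- the two unit vectors have the same base point and are transversal -/
def X_tr (v w : ℂ × ℝ) : Prop := v.1 = w.1 ∧ Real.sin (v.2 - w.2) ≠ 0

theorem X_im (a b x y : ℝ) :
    (((Real.exp a : ℂ) * Complex.exp (x * Complex.I)) *
      (starRingEnd ℂ) ((Real.exp b : ℂ) * Complex.exp (y * Complex.I))).im =
      Real.exp a * Real.exp b * Real.sin (x - y) := by
  have h1 : ((Real.exp a : ℂ) * Complex.exp (x * Complex.I)) *
      (starRingEnd ℂ) ((Real.exp b : ℂ) * Complex.exp (y * Complex.I)) =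
      ((Real.exp a * Real.exp b : ℝ) : ℂ) * Complex.exp (((x - y : ℝ) : ℂ) * Complex.I) := by
    rw [map_mul, Complex.conj_ofReal, ← Complex.exp_conj, map_mul, Complex.conj_ofReal,
      Complex.conj_I]
    push_cast
    rw [sub_mul, Complex.exp_sub, mul_neg, Complex.exp_neg]
    field_simp
  rw [h1, Complex.im_ofReal_mul, Complex.exp_ofReal_mul_I_im]

theorem X_mem (Φ : Flow S) (v w : ℂ × ℝ) (c : ℝ × ℝ) :
    c ∈ Crossings (fun t => (Φ.φ t v).1) (fun t => (Φ.φ t w).1) ↔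
      X_tr (Φ.φ c.1 v) (Φ.φ c.2 w) := by
  unfold Crossings X_tr
  rw [Set.mem_ofPred_eq, (Φ.vel v c.1).deriv, (Φ.vel w c.2).deriv, X_im]
  refine and_congr Iff.rfl (not_congr ?_)
  have h1 := Real.exp_pos (-S.u (Φ.φ c.1 v).1)
  have h2 := Real.exp_pos (-S.u (Φ.φ c.2 w).1)
  constructor
  · intro h
    rcases mul_eq_zero.1 h with h | h
    · exact absurd h (mul_pos h1 h2).ne'
    · exact h
  · intro h
    rw [h, mul_zero]

/-- the pairs of vectors whose geodesics cross transversally during the first unit of time -/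
def X_W (Φ : Flow S) : Set ((ℂ × ℝ) × (ℂ × ℝ)) :=
  {p | ∃ s ∈ Icc (0 : ℝ) 1, ∃ t ∈ Icc (0 : ℝ) 1, X_tr (Φ.φ s p.1) (Φ.φ t p.2)}

theorem X_W_meas (Φ : Flow S) : MeasurableSet (X_W Φ) := by
  have hcl : ∀ n : ℕ, IsClosed {q : ((Icc (0 : ℝ) 1) × (Icc (0 : ℝ) 1)) × ((ℂ × ℝ) × (ℂ × ℝ)) |
      (Φ.φ q.1.1 q.2.1).1 = (Φ.φ q.1.2 q.2.2).1 ∧
      1 / ((n : ℝ) + 1) ≤ |Real.sin ((Φ.φ q.1.1 q.2.1).2 - (Φ.φ q.1.2 q.2.2).2)|} := by
    intro n
    have c1 : Continuous (fun q : ((Icc (0 : ℝ) 1) × (Icc (0 : ℝ) 1)) × ((ℂ × ℝ) × (ℂ × ℝ)) =>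
        Φ.φ q.1.1 q.2.1) :=
      Φ.cont.comp (by fun_prop : Continuous
        (fun q : ((Icc (0 : ℝ) 1) × (Icc (0 : ℝ) 1)) × ((ℂ × ℝ) × (ℂ × ℝ)) =>
          (((q.1.1 : ℝ), q.2.1) : ℝ × (ℂ × ℝ))))
    have c2 : Continuous (fun q : ((Icc (0 : ℝ) 1) × (Icc (0 : ℝ) 1)) × ((ℂ × ℝ) × (ℂ × ℝ)) =>
        Φ.φ q.1.2 q.2.2) :=
      Φ.cont.comp (by fun_prop : Continuous
        (fun q : ((Icc (0 : ℝ) 1) × (Icc (0 : ℝ) 1)) × ((ℂ × ℝ) × (ℂ × ℝ)) =>
          (((q.1.2 : ℝ), q.2.2) : ℝ × (ℂ × ℝ))))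
    exact (isClosed_eq c1.fst c2.fst).inter
      (isClosed_le continuous_const (Real.continuous_sin.comp (c1.snd.sub c2.snd)).abs)
  have hU : X_W Φ = ⋃ n : ℕ, Prod.snd ''
      {q : ((Icc (0 : ℝ) 1) × (Icc (0 : ℝ) 1)) × ((ℂ × ℝ) × (ℂ × ℝ)) |
      (Φ.φ q.1.1 q.2.1).1 = (Φ.φ q.1.2 q.2.2).1 ∧
      1 / ((n : ℝ) + 1) ≤ |Real.sin ((Φ.φ q.1.1 q.2.1).2 - (Φ.φ q.1.2 q.2.2).2)|} := by
    ext p
    simp only [mem_iUnion, mem_image, mem_ofPred_eq]
    constructor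
    · rintro ⟨s, hs, t, ht, h1, h2⟩
      obtain ⟨n, hn⟩ := exists_nat_one_div_lt (abs_pos.2 h2)
      exact ⟨n, ((⟨s, hs⟩, ⟨t, ht⟩), p), ⟨h1, hn.le⟩, rfl⟩
    · rintro ⟨n, q, ⟨h1, h2⟩, rfl⟩
      refine ⟨q.1.1, q.1.1.2, q.1.2, q.1.2.2, h1, ?_⟩
      have h3 : (0 : ℝ) < 1 / ((n : ℝ) + 1) := by positivity
      exact abs_pos.1 (h3.trans_le h2)
  rw [hU]
  exact MeasurableSet.iUnion fun n => (isClosedMap_snd_of_compactSpace _ (hcl n)).measurableSet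

theorem X_sin (x y : ℝ) : Real.sin (x + 2 * Real.pi - y) = Real.sin (x - y) := by
  rw [show x + 2 * Real.pi - y = (x - y) + 2 * Real.pi by ring, Real.sin_add_two_pi]

theorem X_sin' (x y : ℝ) : Real.sin (x - (y + 2 * Real.pi)) = Real.sin (x - y) := by
  rw [show x - (y + 2 * Real.pi) = (x - y) - 2 * Real.pi by ring, Real.sin_sub_two_pi]

/-- the area of the set of shifts `(a, b)` for which the shifted pair is in `X_W` is finite if
there are only finitely many crossings -/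
theorem X_fin (Φ : Flow S) (v w : ℂ × ℝ) (r q : ℝ)
    (hf : (Crossings (fun t => (Φ.φ t v).1) (fun t => (Φ.φ t w).1)).Finite) :
    volume {x : ℝ × ℝ | ((Φ.φ x.1 (Φ.φ r v), Φ.φ x.2 (Φ.φ q w)) : (ℂ × ℝ) × (ℂ × ℝ)) ∈ X_W Φ} <
      ⊤ := by
  set X := Crossings (fun t => (Φ.φ t v).1) (fun t => (Φ.φ t w).1) with hX
  have hsub : {x : ℝ × ℝ | ((Φ.φ x.1 (Φ.φ r v), Φ.φ x.2 (Φ.φ q w)) : (ℂ × ℝ) × (ℂ × ℝ)) ∈ X_W Φ} ⊆
      ⋃ c ∈ X, Icc (c.1 - r - 1) (c.1 - r) ×ˢ Icc (c.2 - q - 1) (c.2 - q) := by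
    rintro ⟨a, b⟩ ⟨s, hs, t, ht, h⟩
    simp only [← Φ.add] at h
    have hc : (s + (a + r), t + (b + q)) ∈ X := (X_mem Φ v w _).2 h
    refine mem_biUnion hc ?_
    simp only [mem_prod, mem_Icc]
    obtain ⟨h1, h2⟩ := hs
    obtain ⟨h3, h4⟩ := ht
    exact ⟨⟨by linarith, by linarith⟩, ⟨by linarith, by linarith⟩⟩
  refine lt_of_le_of_lt (measure_mono hsub) ?_
  refine measure_biUnion_lt_top hf ?_
  intro c _
  exact (isCompact_Icc.prod isCompact_Icc).measure_lt_top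

/-- a shift of both vectors is non-singular -/
theorem X_qmp (Φ : Flow S) (r q : ℝ) :
    Measure.QuasiMeasurePreserving
      (fun p : (ℂ × ℝ) × (ℂ × ℝ) => ((Φ.φ r p.1, Φ.φ q p.2) : (ℂ × ℝ) × (ℂ × ℝ)))
      volume volume := by
  have h1 : ∀ t : ℝ, Measure.QuasiMeasurePreserving (Φ.φ t)
      (volume : Measure (ℂ × ℝ)) volume := by
    intro t
    refine ⟨(Φ.cont_v t).measurable, ?_⟩
    intro A hA
    obtain ⟨B, hB, hBm, hB0⟩ := exists_measurable_superset_of_null hA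
    have h2 : S.m B = 0 := (m_null S B).2 hB0
    have h3 : S.m (Φ.φ t ⁻¹' B) = 0 := by
      rw [(Φ.mp t).measure_preimage hBm.nullMeasurableSet]
      exact h2
    refine measure_mono_null hB ?_
    rw [Measure.map_apply (Φ.cont_v t).measurable hBm]
    exact (m_null S _).1 h3
  exact MeasureTheory.QuasiMeasurePreserving.prodMap (h1 r) (h1 q)

theorem crossing (h : S.Ergodic) (Φ : Flow S) : ∀ᵐ p : (ℂ × ℝ) × (ℂ × ℝ),
    Crossings (fun t => (Φ.φ t p.1).1) (fun t => (Φ.φ t p.2).1) = ∅ ∨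
      (Crossings (fun t => (Φ.φ t p.1).1) (fun t => (Φ.φ t p.2).1)).Infinite := by
  obtain ⟨C, hC, hD⟩ := D_le Φ
  have hrec := recB h Φ (2 * C) (X_W Φ) (X_W_meas Φ)
    (by
      intro p
      simp only [X_W, X_tr, mem_ofPred_eq, Φ.per₁]
      simp only [add_left_inj])
    (by
      intro p
      simp only [X_W, X_tr, mem_ofPred_eq, Φ.per₂]
      simp only [add_left_inj])
    (by
      intro p
      simp only [X_W, X_tr, mem_ofPred_eq, Φ.per₃, X_sin])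
    (by
      intro p
      simp only [X_W, X_tr, mem_ofPred_eq, Φ.per₃, X_sin'])
    (by
      rintro p ⟨s, hs, t, ht, h1, -⟩
      rw [Φ.pos, Φ.pos] at h1
      have h2 : p.1.1 - p.2.1 = Φ.D t p.2 - Φ.D s p.1 := by
        linear_combination h1
      rw [h2]
      refine (norm_sub_le _ _).trans ?_
      have h3 := hD t p.2
      have h4 := hD s p.1
      rw [abs_of_nonneg ht.1] at h3
      rw [abs_of_nonneg hs.1] at h4
      have h5 : C * t ≤ C * 1 := mul_le_mul_of_nonneg_left ht.2 hC.le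
      have h6 : C * s ≤ C * 1 := mul_le_mul_of_nonneg_left hs.2 hC.le
      linarith)
  have hall : ∀ᵐ p : (ℂ × ℝ) × (ℂ × ℝ), ∀ r q : ℚ,
      (((Φ.φ r p.1, Φ.φ q p.2) : (ℂ × ℝ) × (ℂ × ℝ)) ∈ X_W Φ →
        volume {x : ℝ × ℝ | ((Φ.φ x.1 (Φ.φ r p.1), Φ.φ x.2 (Φ.φ q p.2)) : (ℂ × ℝ) × (ℂ × ℝ)) ∈
          X_W Φ} = ⊤) := by
    rw [ae_all_iff]
    intro r
    rw [ae_all_iff]
    intro q
    exact (X_qmp Φ r q).ae hrec
  filter_upwards [hall] with p hp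
  by_contra hcon
  push Not at hcon
  obtain ⟨h1, h2⟩ := hcon
  obtain ⟨c, hc⟩ := h1
  obtain ⟨r, hr1, hr2⟩ := exists_rat_btwn (show c.1 - 1 < c.1 by linarith)
  obtain ⟨q, hq1, hq2⟩ := exists_rat_btwn (show c.2 - 1 < c.2 by linarith)
  have hmem : ((Φ.φ r p.1, Φ.φ q p.2) : (ℂ × ℝ) × (ℂ × ℝ)) ∈ X_W Φ := by
    refine ⟨c.1 - r, ⟨by linarith, by linarith⟩, c.2 - q, ⟨by linarith, by linarith⟩, ?_⟩
    simp only [← Φ.add, sub_add_cancel]
    exact (X_mem Φ p.1 p.2 c).1 hc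
  exact absurd (hp r q hmem) (X_fin Φ p.1 p.2 r q h2).ne

end

end Pool.Agent.ET
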